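import Pool.Agent.H171R2.Tri.Main
import Pool.Agent.H930R2.Tri.T9

/-!
# Some multiple of the `(9:4)`-colouring exists for every triangle-free hexagonal graph
-/

namespace Pool.Agent.Results.MP_8fd115_co.MultipleNineFour

open Pool.Agent.H171R2.Tri

/-- For every finite set `V` of points of the triangular lattice inducing a triangle-free graph there
is `m ≥ 1` such that one can assign to each vertex a set of `4 m` of `9 m` colours with adjacent
vertices receiving disjoint sets. -/
theorem result (V : Finset (ℤ × ℤ))
    (hV : (triLattice.induce (V : Set (ℤ × ℤ))).CliqueFree 3) :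
    ∃ m : ℕ, 1 ≤ m ∧ ∃ C : ℤ × ℤ → Finset (Fin (9 * m)), (∀ v ∈ V, (C v).card = 4 * m) ∧
      ∀ u ∈ V, ∀ v ∈ V, triLattice.Adj u v → Disjoint (C u) (C v) :=
  exists_nine_four oct_main V hV

end Pool.Agent.Results.MP_8fd115_co.MultipleNineFour
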